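import Mathlib
import Pool.Agent.Helper27_BHT.Stmts

/-! # BHT: H1, the local inequality at an archimedean place -/

open Polynomial NumberField

namespace BHT

theorem h1 (hA1 : A1Stmt) (hA2 : A2Stmt) (hG1 : G1Stmt) : H1Stmt := by
  intro m hm
  obtain ⟨κ, hκ, hG⟩ := hG1 m hm
  refine ⟨κ / 16 ^ (2 * m), by positivity, ?_⟩
  intro r u w c hr hrm hc hw hpell j hj
  obtain ⟨ζ, ρ₁, ρ₂, h0, h12, hk, hodd, hroots⟩ := hG r hr hrm j hj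
  obtain ⟨s, hs⟩ := IsAlgClosed.exists_pow_nat_eq c (n := 2) two_pos
  have hs0 : s ≠ 0 := by
    rintro rfl
    apply hc
    rw [← hs]
    simp
  set f : ℂ[X] := X ^ (2 * m) + r with hf
  have hT : (C s⁻¹ * u) ^ 2 - 1 = C c⁻¹ * f * w ^ 2 := by
    have h1 : f * w ^ 2 = u ^ 2 - C c := by rw [← hpell]; ring
    have h2 : (C s⁻¹ : ℂ[X]) ^ 2 = C c⁻¹ := by
      rw [← C_pow, inv_pow, hs]
    have h3 : (C c⁻¹ : ℂ[X]) * C c = 1 := by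
      rw [← C_mul, inv_mul_cancel₀ hc, C_1]
    rw [mul_pow, h2, mul_assoc, h1, mul_sub, h3]
  have h2 := hA1 (C s⁻¹ * u) f w c⁻¹ (inv_ne_zero hc) hT ζ ρ₁ ρ₂ h0 h12 hodd hroots
  have h3 := hA2 (C s⁻¹ * u) ζ ρ₁ ρ₂ h0 h12 h2
  have hinv : s⁻¹ ≠ 0 := inv_ne_zero hs0
  rw [leadingCoeff_mul, leadingCoeff_C, natDegree_C_mul hinv, norm_mul, norm_inv] at h3
  have hsn : 0 < ‖s‖ := norm_pos_iff.2 hs0
  have hD : 0 < (ρ₂ - ρ₁) / 16 := by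
    have : 0 < ρ₂ - ρ₁ := sub_pos.2 h12
    positivity
  set D := (ρ₂ - ρ₁) / 16 with hDdef
  set N := u.natDegree with hN
  have h4 : ‖u.leadingCoeff‖ * D ^ N ≤ ‖s‖ := by
    have h5 : ‖s‖⁻¹ * ‖u.leadingCoeff‖ * D ^ N = (‖u.leadingCoeff‖ * D ^ N) / ‖s‖ := by
      field_simp
    rw [h5, div_le_one hsn] at h3
    exact h3
  have h5 : ‖u.leadingCoeff‖ ^ 2 * D ^ (2 * N) ≤ ‖c‖ := by
    have h6 : (‖u.leadingCoeff‖ * D ^ N) ^ 2 ≤ ‖s‖ ^ 2 :=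
      pow_le_pow_left₀ (by positivity) h4 2
    rw [← norm_pow, hs] at h6
    calc ‖u.leadingCoeff‖ ^ 2 * D ^ (2 * N) = (‖u.leadingCoeff‖ * D ^ N) ^ 2 := by ring
      _ ≤ ‖c‖ := h6
  have h6 : (‖u.leadingCoeff‖ ^ 2 * D ^ (2 * N)) ^ (2 * m - j) ≤ ‖c‖ ^ (2 * m - j) :=
    pow_le_pow_left₀ (by positivity) h5 _
  refine le_trans ?_ h6
  have h7 : κ / 16 ^ (2 * m) * ‖r.coeff j‖ ≤ D ^ (2 * m - j) := by
    rw [hDdef, div_pow]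
    have h8 : (16 : ℝ) ^ (2 * m - j) ≤ 16 ^ (2 * m) :=
      pow_le_pow_right₀ (by norm_num) (by omega)
    calc κ / 16 ^ (2 * m) * ‖r.coeff j‖ = (κ * ‖r.coeff j‖) / 16 ^ (2 * m) := by ring
      _ ≤ (κ * ‖r.coeff j‖) / 16 ^ (2 * m - j) := by
        apply div_le_div_of_nonneg_left _ _ h8
        · positivity
        · positivity
      _ ≤ (ρ₂ - ρ₁) ^ (2 * m - j) / 16 ^ (2 * m - j) := by
        apply div_le_div_of_nonneg_right hk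
        positivity
  have h8 : (κ / 16 ^ (2 * m) * ‖r.coeff j‖) ^ (2 * N) ≤ (D ^ (2 * m - j)) ^ (2 * N) :=
    pow_le_pow_left₀ (by positivity) h7 _
  calc (κ / 16 ^ (2 * m) * ‖r.coeff j‖) ^ (2 * N) * ‖u.leadingCoeff‖ ^ (2 * (2 * m - j))
      ≤ (D ^ (2 * m - j)) ^ (2 * N) * ‖u.leadingCoeff‖ ^ (2 * (2 * m - j)) := by
        apply mul_le_mul_of_nonneg_right h8
        positivity
    _ = (‖u.leadingCoeff‖ ^ 2 * D ^ (2 * N)) ^ (2 * m - j) := by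
        rw [mul_pow, ← pow_mul, ← pow_mul, ← pow_mul, mul_comm (2 * N) (2 * m - j)]
        ring

end BHT
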